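import Pool.Agent.W937.SingleOrbitD

/-!
# Single-orbit versus general local characterizations of affine-invariant properties

We answer Q1 and Q2 in the negative.  Over every finite field `F` with `q` elements, already the
affine-invariant properties with a `6`-local characterization have unbounded single-orbit
locality `k'(P)` as `Q = q ^ t` grows: for `t = 6 ^ n` there is one with `k'(P) ≥ n`.
More generally, for every `r ≥ 1` there are affine-invariant properties with a
`3 * 2 ^ (2 * r - 1)`-local characterization and `k'(P) ≥ n ^ r`, for `t = N_r ^ n`, where `N_r`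
is the product of the first `2 * r` primes.  So no bound `g(k, q)` exists, and no fixed power of
`log log Q` bounds `k'(P)` for all `k`.

Idea.  For `g` in the Galois group `Gal(K/F)` the quadratic functions `x ↦ Tr (c x g(x))` are
annihilated by a functional `∑ κ_l f(z_l)` (with `∑ κ_l = 0 = ∑ κ_l z_l`) iff
`∑ κ_l z_l g(z_l) = 0`.  For the tensor `(λ ⊗ 1 - 1 ⊗ λ) (μ ⊗ 1 - 1 ⊗ μ)`, which has a
`6`-point functional, this happens iff `g` fixes `λ` or `μ`.  Taking `λ`, `μ` in suitable
subfields, we obtain `n` functionals whose zero sets intersect in a set `S` of automorphisms for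
which a triangular matrix of size `n` factors through any single constraint that cuts out the
property.
-/

namespace Pool.Agent.Results.MP_cb1103_lc.SingleOrbitUnbounded

open Pool.Agent.W937.SingleOrbit

theorem result (r : ℕ) (hr : 1 ≤ r) (F : Type) [Field F] [Finite F] (n : ℕ) (hn : 1 ≤ n) :
    ∃ (K : Type) (_ : Field K) (_ : Finite K) (_ : Algebra F K) (P : Submodule F (K → F)),
      Nat.card K = Nat.card F ^ ((∏ i ∈ Finset.range (2 * r), Nat.nth Nat.Prime i) ^ n) ∧
      AffineInvariant P ∧
      LocallyCharacterized (3 * 2 ^ (2 * r - 1)) P ∧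
      SingleOrbitCharacterized (kPrime P) P ∧
      n ^ r ≤ kPrime P := by
  classical
  have hcard : Fintype.card (Fin r × Bool) = Fintype.card (Fin (2 * r)) := by simp; omega
  let e : Fin r × Bool ≃ Fin (2 * r) := Fintype.equivOfCardEq hcard
  let π : Fin r × Bool → ℕ := fun w => Nat.nth Nat.Prime (e w)
  have hp : ∀ w, (π w).Prime := fun w => Nat.prime_nth_prime _
  have hinj : Function.Injective π := by
    intro w w' h
    have h1 := Nat.nth_injective Nat.infinite_setOfPred_prime h
    exact e.injective (Fin.ext h1)
  have hprod : ∏ w, π w = ∏ i ∈ Finset.range (2 * r), Nat.nth Nat.Prime i := by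
    rw [Finset.prod_range, ← Equiv.prod_comp e]
  obtain ⟨p, hchar⟩ := CharP.exists F
  have : Fact p.Prime := ⟨CharP.char_is_prime F p⟩
  have hpos : ∏ w, π w ≠ 0 := Finset.prod_ne_zero_iff.2 fun w _ => (hp w).ne_zero
  have : NeZero ((∏ w, π w) ^ n) := ⟨pow_ne_zero _ hpos⟩
  obtain ⟨P, h1, h2, h3, h4⟩ := construction hr π hp hinj hn
    (FiniteField.finrank_extension F p ((∏ w, π w) ^ n))
  refine ⟨FiniteField.Extension F p ((∏ w, π w) ^ n), inferInstance, inferInstance, inferInstance,
    P, ?_, h1, h2, h3, h4⟩
  rw [FiniteField.natCard_extension, hprod]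

end Pool.Agent.Results.MP_cb1103_lc.SingleOrbitUnbounded
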